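import Pool.Agent.E8helper64.GC.Stm

/-!
# Project GC (MP_6429ad_ag, helper64): the piece LOW1
-/

set_option autoImplicit false

namespace Pool.Agent.E8helper86.GC

open MvPolynomial Filter
open Pool.Agent.E8helper64.GC

universe u

/-- the restriction to the line spanned by `p` and `q` -/
noncomputable def rho {K : Type u} [Field K] {n : ℕ} (p q : Fin n → K) :
    MvPolynomial (Fin n) K →ₐ[K] MvPolynomial (Fin 2) K :=
  aeval fun i => C (p i) * X 0 + C (q i) * X 1

lemma eval_rho {K : Type u} [Field K] {n : ℕ} (p q : Fin n → K) (z : Fin 2 → K)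
    (G : MvPolynomial (Fin n) K) : eval z (rho p q G) = eval (z 0 • p + z 1 • q) G := by
  have h : (eval z).comp (rho p q : MvPolynomial (Fin n) K →+* MvPolynomial (Fin 2) K) =
      eval (z 0 • p + z 1 • q) := by
    apply MvPolynomial.ringHom_ext
    · intro r
      simp [rho]
    · intro i
      simp [rho]
      ring
  exact congrArg (fun f => f G) (congrArg DFunLike.coe h) 

/-- two linear forms -/
lemma exists_forms {K : Type u} [Field K] {n : ℕ} {p q : Fin n → K}
    (h : LinearIndependent K ![p, q]) :
    ∃ l : Fin 2 → MvPolynomial (Fin n) K, (∀ k, (l k).IsHomogeneous 1) ∧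
      ∀ k, rho p q (l k) = X k := by
  have hinj : LinearMap.ker (Fintype.linearCombination K ![p, q]) = ⊥ :=
    LinearMap.ker_eq_bot.2 (linearIndependent_iff_injective_fintypeLinearCombination.1 h)
  obtain ⟨L, hL⟩ := LinearMap.exists_leftInverse_of_injective _ hinj
  have hp : L p = Pi.single 0 1 := by
    have := LinearMap.congr_fun hL (Pi.single 0 1)
    simpa [Fintype.linearCombination_apply, Fin.sum_univ_two] using this
  have hq : L q = Pi.single 1 1 := by
    have := LinearMap.congr_fun hL (Pi.single 1 1)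
    simpa [Fintype.linearCombination_apply, Fin.sum_univ_two] using this
  have hv : ∀ (v : Fin n → K) (k : Fin 2), L v k = ∑ i, L (Pi.single i 1) k * v i := by
    intro v k
    conv_lhs => rw [← Finset.univ_sum_single v]
    rw [map_sum, Finset.sum_apply]
    refine Finset.sum_congr rfl fun i _ => ?_
    have e1 : (Pi.single i (v i) : Fin n → K) = v i • Pi.single i 1 := by
      rw [← Pi.single_smul, smul_eq_mul, mul_one]
    rw [e1, map_smul, Pi.smul_apply, smul_eq_mul, mul_comm]
  refine ⟨fun k => ∑ i, C (L (Pi.single i 1) k) * X i, fun k => ?_, fun k => ?_⟩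
  · apply IsHomogeneous.sum
    intro i _
    exact isHomogeneous_C_mul_X _ _
  · have e2 : rho p q (∑ i, C (L (Pi.single i 1) k) * X i) =
        C (L p k) * X 0 + C (L q k) * X 1 := by
      rw [hv p k, hv q k, map_sum, map_sum, map_sum, Finset.sum_mul, Finset.sum_mul,
        ← Finset.sum_add_distrib]
      refine Finset.sum_congr rfl fun i _ => ?_
      simp only [rho, map_mul, aeval_X, algHom_C, algebraMap_eq]
      ring
    rw [e2, hp, hq]
    fin_cases k <;> simp

/-- LOW1 -/
theorem t_LOW1 : S_LOW1.{u} := by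
  intro K _ _ n X' Λ p q h hX hp hq t
  obtain ⟨l, hl, hl'⟩ := exists_forms h
  have hker : ∀ G ∈ vI X' ⊔ vI (Λ : Set (Fin n → K)), rho p q G = 0 := by
    have hle : vI X' ⊔ vI (Λ : Set (Fin n → K)) ≤
        RingHom.ker (rho p q : MvPolynomial (Fin n) K →+* MvPolynomial (Fin 2) K) := by
      refine sup_le (fun G hG => ?_) (fun G hG => ?_)
      · rw [RingHom.mem_ker]
        apply MvPolynomial.funext
        intro z
        rw [map_zero]
        exact (eval_rho p q z G).trans (hG _ (hX _ _))
      · rw [RingHom.mem_ker]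
        apply MvPolynomial.funext
        intro z
        rw [map_zero]
        exact (eval_rho p q z G).trans (hG _ (Λ.add_mem (Λ.smul_mem _ hp) (Λ.smul_mem _ hq)))
    intro G hG
    exact hle hG
  set J := vI X' ⊔ vI (Λ : Set (Fin n → K)) with hJ
  set M := homogeneousSubmodule (Fin n) K t with hM
  have hfin : Module.Finite K M := Module.Finite.iff_fg.2 (homogeneousSubmodule_fg (Fin n) K t)
  let f : (M ⧸ (J.restrictScalars K).comap M.subtype) →ₗ[K] MvPolynomial (Fin 2) K :=
    Submodule.liftQ _ ((rho p q).toLinearMap ∘ₗ M.subtype) (by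
      intro G hG
      exact hker _ hG)
  let v : Fin (t + 1) → (M ⧸ (J.restrictScalars K).comap M.subtype) := fun i =>
    Submodule.Quotient.mk ⟨l 0 ^ (i : ℕ) * l 1 ^ (t - i), by
      have h1 : (l 0 ^ (i : ℕ) * l 1 ^ (t - i)).IsHomogeneous (1 * (i : ℕ) + 1 * (t - i)) :=
        ((hl 0).pow _).mul ((hl 1).pow _)
      have h2 : 1 * (i : ℕ) + 1 * (t - i) = t := by omega
      rw [h2] at h1
      exact h1⟩
  have hfv : ∀ i, f (v i) = basisMonomials (Fin 2) K
      (Finsupp.single 0 (i : ℕ) + Finsupp.single 1 (t - i)) := by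
    intro i
    show rho p q (l 0 ^ (i : ℕ) * l 1 ^ (t - i)) = _
    rw [map_mul, map_pow, map_pow, hl', hl', coe_basisMonomials, X_pow_eq_monomial,
      X_pow_eq_monomial, monomial_mul, one_mul]
  have hind : LinearIndependent K v := by
    apply LinearIndependent.of_comp f
    have e1 : (f ∘ v) = (basisMonomials (Fin 2) K) ∘ fun i : Fin (t + 1) =>
        (Finsupp.single 0 (i : ℕ) + Finsupp.single 1 (t - i) : Fin 2 →₀ ℕ) := by
      funext i
      exact hfv i
    rw [e1]
    refine (basisMonomials (Fin 2) K).linearIndependent.comp _ ?_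
    intro i j hij
    have h1 := DFunLike.congr_fun hij 0
    simp at h1
    exact Fin.ext h1
  have := hind.fintype_card_le_finrank
  rw [Fintype.card_fin] at this
  exact this

end Pool.Agent.E8helper86.GC
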